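import Pool.Agent.N557.BP.Stm

set_option autoImplicit false

/-!
BP/STAY (helper545 for helper557): parallel lines at small distance have the same itinerary.
-/

namespace Pool.Agent.N545.BP

open Complex Set MeasureTheory Filter Topology Pool.Agent.W780.PG Pool.Agent.W780.BB
  Pool.Agent.TH103.BL Pool.Agent.N557.BP

open scoped Real ComplexConjugate

theorem t_stay : S_Opp → Pool.Agent.N557.BP.S_Exit → S_Shift → S_Stay := by
  intro hO hE hS n p hp z z' θ u u' t t' O O' δ K hW htv m
  induction m using Nat.strong_induction_on with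
  | _ m ih =>
    intro hm
    have hi : ∀ i < m, u' i = u i := fun i hi => ih i hi (hi.trans hm)
    have hang : angs p θ u' m = angs p θ u m := angs_congr hi
    have hsrc : srcs p z' u' m = srcs p z' u m := srcs_congr hi
    have hvd : ∀ j, vd p z' θ u' m j = vd p z θ u m j + (-1) ^ m * tv θ (z' - z) := by
      intro j
      rw [← hS n p z z' θ u m j]
      unfold vd
      rw [hang, hsrc]
    have hopp := hO n p hp z θ u t O m
    obtain ⟨h1, h2⟩ := hW m hm
    have habs : |(-1) ^ m * tv θ (z' - z)| < δ := by
      rw [abs_mul, abs_pow, abs_neg, abs_one, one_pow, one_mul]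
      exact htv
    rw [abs_lt] at habs
    refine hE n p hp z' θ u' t' O' m (u m) ?_ ?_
    · rw [hang]
      exact sl_neg hp O m
    · rw [hvd, hvd]
      rcases mul_neg_iff.1 hopp with ⟨ha, hb⟩ | ⟨ha, hb⟩
      · rw [abs_of_pos ha] at h1
        rw [abs_of_neg hb] at h2
        exact mul_neg_of_pos_of_neg (by linarith) (by linarith)
      · rw [abs_of_neg ha] at h1
        rw [abs_of_pos hb] at h2
        exact mul_neg_of_neg_of_pos (by linarith) (by linarith)

end Pool.Agent.N545.BP
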